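import Mathlib

namespace Pool.Agent.Results.MP_e8eed4_co.Full

open Filter
open scoped ENNReal Classical

variable {V : Type}

/-- total weight of the edges from `v` to vertices of a different colour -/
noncomputable def D (G : SimpleGraph V) (w : Sym2 V → ℕ) (φ : V → ℕ) (v : V) : ℝ≥0∞ :=
  ∑' u, if G.Adj v u ∧ φ u ≠ φ v then (w s(v, u) : ℝ≥0∞) else 0

/-- total weight of the edges from `v` to vertices of the same colour -/
noncomputable def S (G : SimpleGraph V) (w : Sym2 V → ℕ) (φ : V → ℕ) (v : V) : ℝ≥0∞ :=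
  ∑' u, if G.Adj v u ∧ φ u = φ v then (w s(v, u) : ℝ≥0∞) else 0

theorem lists {I : Type} [Countable I] (A : I → Set V) (hA : ∀ i, (A i).Infinite) :
    ∃ ex : V → Fin 3, ∀ i c, {u | u ∈ A i ∧ ex u = c}.Infinite := by
  rcases isEmpty_or_nonempty I with hI | hI
  · exact ⟨fun _ => 0, fun i => hI.elim i⟩
  obtain ⟨e, he⟩ := exists_surjective_nat (I × Fin 3 × ℕ)
  choose pick hp1 hp2 using fun (n : ℕ) (s : Finset V) => (hA (e n).1).exists_notMem_finset s
  let F : ℕ → Finset V := fun n => Nat.rec ∅ (fun n s => insert (pick n s) s) n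
  have hF : ∀ n, F (n + 1) = insert (pick n (F n)) (F n) := fun n => rfl
  have mem : ∀ m n, m < n → pick m (F m) ∈ F n := by
    intro m n h
    induction n, h using Nat.le_induction with
    | base => rw [hF]; exact Finset.mem_insert_self _ _
    | succ n _ ih => rw [hF]; exact Finset.mem_insert_of_mem ih
  have inj : Function.Injective fun n => pick n (F n) := by
    intro m n h
    by_contra hne
    rcases lt_or_gt_of_ne hne with l | l
    · exact hp2 n (F n) (by have := mem m n l; rwa [show pick m (F m) = pick n (F n) from h] at this)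
    · exact hp2 m (F m) (by have := mem n m l; rwa [← show pick m (F m) = pick n (F n) from h] at this)
  refine ⟨Function.extend (fun n => pick n (F n)) (fun n => (e n).2.1) fun _ => 0, fun i c => ?_⟩
  choose g hg using he
  apply Set.infinite_of_injective_forall_mem (f := fun k : ℕ => pick (g (i, c, k)) (F (g (i, c, k))))
  · intro k l h
    have := congrArg e (inj h)
    rw [hg, hg] at this
    simpa using this
  · intro k
    refine ⟨?_, ?_⟩
    · have := hp1 (g (i, c, k)) (F (g (i, c, k)))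
      rwa [hg] at this
    · rw [inj.extend_apply, hg]

theorem fin_opt (a : V → V → ℕ) (sy : ∀ u v, a u v = a v u) (lo : ∀ v, a v v = 0)
    (ex : V → Fin 3) (s : Finset V) : ∃ φ : V → Fin 3, (∀ v, φ v ≠ ex v) ∧ ∀ v ∈ s,
      ∑ u ∈ s, (if φ u = φ v then a v u else 0) ≤ ∑ u ∈ s, (if φ u ≠ φ v then a v u else 0) := by
  let M : (V → Fin 3) → ℕ := fun φ => ∑ u ∈ s, ∑ t ∈ s, if φ t = φ u then a u t else 0
  have hex : ∃ n, ∃ φ : V → Fin 3, (∀ v, φ v ≠ ex v) ∧ M φ = n :=
    ⟨_, fun v => ex v + 1, fun v => (by decide : ∀ x : Fin 3, x + 1 ≠ x) (ex v), rfl⟩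
  obtain ⟨φ, h1, h2⟩ := Nat.find_spec hex
  refine ⟨φ, h1, fun v hv => ?_⟩
  have third : ∀ x y : Fin 3, ∃ z, z ≠ x ∧ z ≠ y := by decide
  obtain ⟨c, c1, c2⟩ := third (ex v) (φ v)
  have dec : ∀ ψ : V → Fin 3, M ψ =
      (∑ u ∈ s.erase v, ∑ t ∈ s.erase v, if ψ t = ψ u then a u t else 0) +
        2 * ∑ u ∈ s.erase v, if ψ u = ψ v then a v u else 0 := by
    intro ψ
    simp only [M]
    rw [← Finset.add_sum_erase s _ hv, ← Finset.add_sum_erase s _ hv]
    have : ∑ u ∈ s.erase v, ∑ t ∈ s, (if ψ t = ψ u then a u t else 0) =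
        (∑ u ∈ s.erase v, if ψ u = ψ v then a v u else 0) +
          ∑ u ∈ s.erase v, ∑ t ∈ s.erase v, if ψ t = ψ u then a u t else 0 := by
      rw [← Finset.sum_add_distrib]
      refine Finset.sum_congr rfl fun u _ => ?_
      rw [← Finset.add_sum_erase s _ hv, sy u v]
      simp only [eq_comm]
    rw [this, lo]
    simp only [ite_self]
    ring
  have hmin : M φ ≤ M (Function.update φ v c) := by
    rw [h2]
    refine Nat.find_min' hex ⟨_, fun u => ?_, rfl⟩
    by_cases h : u = v
    · rw [h, Function.update_self]; exact c1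
    · rw [Function.update_of_ne h]; exact h1 u
  have e1 : (∑ u ∈ s.erase v, ∑ t ∈ s.erase v,
      if Function.update φ v c t = Function.update φ v c u then a u t else 0) =
      ∑ u ∈ s.erase v, ∑ t ∈ s.erase v, if φ t = φ u then a u t else 0 := by
    refine Finset.sum_congr rfl fun u hu => Finset.sum_congr rfl fun t ht => ?_
    rw [Function.update_of_ne (Finset.ne_of_mem_erase hu),
      Function.update_of_ne (Finset.ne_of_mem_erase ht)]
  have e2 : (∑ u ∈ s.erase v,
      if Function.update φ v c u = Function.update φ v c v then a v u else 0) ≤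
      ∑ u ∈ s.erase v, if φ u ≠ φ v then a v u else 0 := by
    refine Finset.sum_le_sum fun u hu => ?_
    rw [Function.update_of_ne (Finset.ne_of_mem_erase hu), Function.update_self]
    by_cases h : φ u = c
    · rw [if_pos h, if_pos (h ▸ c2)]
    · rw [if_neg h]; exact Nat.zero_le _
  rw [dec, dec, e1] at hmin
  rw [← Finset.add_sum_erase s _ hv, ← Finset.add_sum_erase s _ hv, lo]
  simp only [ite_self]
  omega

theorem result (V : Type) [Countable V] (G : SimpleGraph V) (w : Sym2 V → ℕ) :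
    ∃ φ : V → ℕ, (∀ v, φ v < 3) ∧ ∀ v, S G w φ v ≤ D G w φ v := by
  let a : V → V → ℕ := fun u v => if G.Adj u v then w s(u, v) else 0
  have sy : ∀ u v, a u v = a v u := fun u v => by simp only [a, G.adj_comm u v, Sym2.eq_swap]
  have lo : ∀ v, a v v = 0 := fun v => by simp [a]
  obtain ⟨ex, hex⟩ := lists (I := {v // {u | a v u ≠ 0}.Infinite}) (fun v => {u | a v.1 u ≠ 0})
    fun v => v.2
  choose ψ h1 h2 using fin_opt a sy lo ex
  let U : Ultrafilter (Finset V) := Ultrafilter.of atTop
  have hU : ∀ v, ∃ c, ∀ᶠ s in (U : Filter (Finset V)), ψ s v = c := fun v =>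
    Ultrafilter.eventually_exists_iff.1 (Eventually.of_forall fun s => ⟨_, rfl⟩)
  choose φ hφ using hU
  have hne : ∀ v, φ v ≠ ex v := fun v => by
    obtain ⟨s, hs⟩ := (hφ v).exists
    exact hs ▸ h1 s v
  have eS : ∀ v, S G w (fun u => (φ u).val) v = ∑' u, ((if φ u = φ v then a v u else 0 : ℕ) : ℝ≥0∞) := by
    intro v
    refine tsum_congr fun u => ?_
    simp only [a, Fin.val_inj]
    by_cases p : G.Adj v u <;> by_cases q : φ u = φ v <;> simp [p, q]
  have eD : ∀ v, D G w (fun u => (φ u).val) v = ∑' u, ((if φ u ≠ φ v then a v u else 0 : ℕ) : ℝ≥0∞) := by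
    intro v
    refine tsum_congr fun u => ?_
    simp only [a, ne_eq, Fin.val_inj]
    by_cases p : G.Adj v u <;> by_cases q : φ u = φ v <;> simp [p, q]
  refine ⟨fun u => (φ u).val, fun v => (φ v).2, fun v => ?_⟩
  rw [eS, eD]
  by_cases hv : {u | a v u ≠ 0}.Infinite
  · have hi := hex ⟨v, hv⟩ (φ v)
    have := hi.to_subtype
    have h3 := ENNReal.tsum_comp_le_tsum_of_injective
      (f := (Subtype.val : {u | u ∈ {u | a v u ≠ 0} ∧ ex u = φ v} → V)) Subtype.val_injective
      fun u => ((if φ u ≠ φ v then a v u else 0 : ℕ) : ℝ≥0∞)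
    refine le_top.trans (le_trans ?_ h3)
    rw [← ENNReal.tsum_const_eq_top_of_ne_zero
      (α := {u | u ∈ {u | a v u ≠ 0} ∧ ex u = φ v}) one_ne_zero]
    refine ENNReal.tsum_le_tsum fun u => ?_
    rw [if_pos fun h => hne u.1 (h.trans u.2.2.symm)]
    exact_mod_cast Nat.one_le_iff_ne_zero.2 u.2.1
  · have hf := Set.not_infinite.1 hv
    let t : Finset V := insert v hf.toFinset
    have ev1 : ∀ᶠ s in (U : Filter (Finset V)), t ≤ s :=
      Ultrafilter.of_le atTop (eventually_ge_atTop t)
    have ev2 : ∀ᶠ s in (U : Filter (Finset V)), ∀ u ∈ t, ψ s u = φ u :=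
      (eventually_all_finset t).2 fun u _ => hφ u
    obtain ⟨s, s1, s2⟩ := (ev1.and ev2).exists
    have vt : v ∈ t := Finset.mem_insert_self _ _
    have z : ∀ u, u ∉ t → a v u = 0 := fun u hu => by
      by_contra h
      exact hu (Finset.mem_insert_of_mem (hf.mem_toFinset.2 h))
    have h3 := h2 s v (s1 vt)
    have r1 : ∀ u, (if ψ s u = ψ s v then a v u else 0) = if φ u = φ v then a v u else 0 := by
      intro u
      by_cases hu : u ∈ t
      · rw [s2 u hu, s2 v vt]
      · simp [z u hu]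
    have r2 : ∀ u, (if ψ s u ≠ ψ s v then a v u else 0) = if φ u ≠ φ v then a v u else 0 := by
      intro u
      by_cases hu : u ∈ t
      · rw [s2 u hu, s2 v vt]
      · simp [z u hu]
    simp only [r1, r2] at h3
    rw [tsum_eq_sum (s := s) fun u hu => by simp [z u fun h => hu (s1 h)],
      tsum_eq_sum (s := s) fun u hu => by simp [z u fun h => hu (s1 h)]]
    exact_mod_cast h3

end Pool.Agent.Results.MP_e8eed4_co.Full
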